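import Pool.Agent.helper53.ORT.Spec

/-! Project ort, row KDA: a minimal subspace. -/

set_option autoImplicit false

namespace Pool.Agent.ORT

open Module Pool.Agent.GS

theorem KDA_expand {F : Type} [Field F] [Finite F] (f : Polynomial F) (j : ℕ) :
    f ^ (Nat.card F ^ j) = Polynomial.expand F (Nat.card F ^ j) f := by
  have : Fintype F := Fintype.ofFinite F
  rw [Nat.card_eq_fintype_card]
  induction j with
  | zero => rw [pow_zero, pow_one, Polynomial.expand_one]
  | succ j ih =>
    rw [pow_succ, pow_mul, ih, ← FiniteField.expand_card, Polynomial.expand_expand, mul_comm]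

theorem KDA : KDA_stmt := by
  classical
  intro F V _ _ _ _ _ B hchar hB k hk r hr hr2 hrF hkr hk1
  have hrp : Fact r.Prime := ⟨hr⟩
  have hklin : ∀ x y, k (x + y) = k x + k y := hk.1.1
  have hksmul : ∀ (c : F) x, k (c • x) = c • k x := hk.1.2
  have hkB : ∀ x y, B (k x) (k y) = B x y := hk.2
  have hki := (SpG B).inv_mem hk
  -- the linear maps
  obtain ⟨T, hT⟩ : ∃ T : V →ₗ[F] V, ∀ v, T v = k v :=
    ⟨{ toFun := k, map_add' := hklin, map_smul' := hksmul }, fun v => rfl⟩
  obtain ⟨Ti, hTi⟩ : ∃ T : V →ₗ[F] V, ∀ v, T v = k⁻¹ v :=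
    ⟨{ toFun := ⇑(k⁻¹), map_add' := hki.1.1, map_smul' := hki.1.2 }, fun v => rfl⟩
  have hTpow : ∀ (j : ℕ) (v : V), (T ^ j) v = (k ^ j) v := by
    intro j
    induction j with
    | zero => intro v; rfl
    | succ j ih =>
      intro v
      rw [pow_succ, pow_succ, Module.End.mul_apply, Equiv.Perm.mul_apply, hT, ih]
  have hTr : T ^ r = 1 := by
    ext v
    rw [hTpow, hkr]; rfl
  have hTiT : Ti = T ^ (r - 1) := by
    ext v
    rw [hTpow, hTi]
    have h1 : k ^ (r - 1) = k⁻¹ := by
      rw [eq_inv_iff_mul_eq_one, ← pow_succ, Nat.sub_add_cancel hr.one_lt.le, hkr]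
    rw [h1]
  -- Frobenius
  have hq : r ∣ Nat.card F ^ (r - 1) - 1 ∧ 2 ≤ Nat.card F ^ (r - 1) := by
    have hq2 : 2 ≤ Nat.card F := Finite.one_lt_card
    have hr1 : 1 ≤ r - 1 := by have := hr.two_le; omega
    have hQ : 2 ≤ Nat.card F ^ (r - 1) := by
      calc 2 ≤ Nat.card F := hq2
        _ = Nat.card F ^ 1 := (pow_one _).symm
        _ ≤ Nat.card F ^ (r - 1) := Nat.pow_le_pow_right (by omega) hr1
    refine ⟨?_, hQ⟩
    have hne : ((Nat.card F : ℕ) : ZMod r) ≠ 0 := by
      intro h0
      rw [ZMod.natCast_eq_zero_iff] at h0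
      obtain ⟨p, hp⟩ := CharP.exists F
      have hpp : p.Prime :=
        (CharP.char_is_prime_or_zero F p).resolve_right (CharP.char_ne_zero_of_finite F p)
      have hfi : Fintype F := Fintype.ofFinite F
      obtain ⟨n, hn1, hn2⟩ := FiniteField.card F p
      rw [Nat.card_eq_fintype_card, hn2] at h0
      have h1 : r ∣ p := hr.dvd_of_dvd_pow h0
      have h2 : r = p := (Nat.prime_dvd_prime_iff_eq hr hpp).1 h1
      apply hrF
      rw [h2]
      exact CharP.cast_eq_zero F p
    have h1 := ZMod.pow_card_sub_one_eq_one hne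
    have h2 : ((1 : ℕ) : ZMod r) = ((Nat.card F ^ (r - 1) : ℕ) : ZMod r) := by
      push_cast; exact h1.symm
    rw [ZMod.natCast_eq_natCast_iff] at h2
    exact (Nat.modEq_iff_dvd' (by omega)).1 h2
  obtain ⟨⟨j0, hj0⟩, hQ2⟩ := hq
  obtain ⟨Q, hQdef⟩ : ∃ Q : ℕ, Q = Nat.card F ^ (r - 1) := ⟨_, rfl⟩
  rw [← hQdef] at hj0 hQ2
  have hQj : Q = 1 + r * j0 := by omega
  have hTQ : T ^ Q = T := by
    rw [hQj, pow_add, pow_mul, hTr, one_pow, pow_one, mul_one]
  obtain ⟨S, hS⟩ : ∃ S : V →ₗ[F] V, S = T + Ti := ⟨_, rfl⟩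
  have hSv : ∀ v, S v = k v + k⁻¹ v := by
    intro v
    rw [hS, LinearMap.add_apply, hT, hTi]
  have hSpol : S = Polynomial.aeval T (Polynomial.X + Polynomial.X ^ (r - 1) : Polynomial F) := by
    rw [map_add, map_pow, Polynomial.aeval_X, hS, hTiT]
  have hSQ : S ^ Q = S := by
    rw [hSpol, ← map_pow, hQdef, KDA_expand, Polynomial.expand_aeval, ← hQdef, hTQ]
  have hxQ : ∀ p : Polynomial F, (Polynomial.aeval S p) ^ Q = Polynomial.aeval S p := by
    intro p
    rw [← map_pow, hQdef, KDA_expand, Polynomial.expand_aeval, ← hQdef, hSQ]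
  -- adjoints
  have hadj1 : ∀ u v, B (k u) v = B u (k⁻¹ v) := by
    intro u v
    have h1 := hkB u (k⁻¹ v)
    rw [show k (k⁻¹ v) = v from by
      rw [← Equiv.Perm.mul_apply, mul_inv_cancel]; rfl] at h1
    exact h1
  have hadj2 : ∀ u v, B (k⁻¹ u) v = B u (k v) := by
    intro u v
    have h1 := hkB (k⁻¹ u) v
    rw [show k (k⁻¹ u) = u from by
      rw [← Equiv.Perm.mul_apply, mul_inv_cancel]; rfl] at h1
    exact h1.symm
  have hSadj : ∀ u v, B (S u) v = B u (S v) := by
    intro u v
    rw [hSv, hSv, map_add, LinearMap.add_apply, map_add, hadj1, hadj2, add_comm]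
  have hSpow : ∀ (n : ℕ) (u v : V), B ((S ^ n) u) v = B u ((S ^ n) v) := by
    intro n
    induction n with
    | zero => intro u v; rfl
    | succ n ih =>
      intro u v
      have e1 : (S ^ (n + 1)) u = (S ^ n) (S u) := by rw [pow_succ, Module.End.mul_apply]
      have e2 : (S ^ (n + 1)) v = S ((S ^ n) v) := by rw [pow_succ', Module.End.mul_apply]
      rw [e1, e2, ih, hSadj]
  have hxadj : ∀ (p : Polynomial F) (u v : V),
      B (Polynomial.aeval S p u) v = B u (Polynomial.aeval S p v) := by
    intro p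
    induction p using Polynomial.induction_on' with
    | add p q hp hq =>
      intro u v
      rw [map_add, LinearMap.add_apply, LinearMap.add_apply, map_add, LinearMap.add_apply,
        map_add, hp, hq]
    | monomial n a =>
      intro u v
      rw [Polynomial.aeval_monomial, ← Algebra.smul_def, LinearMap.smul_apply,
        LinearMap.smul_apply, map_smul, LinearMap.smul_apply, map_smul, hSpow]
  -- commutation
  have hcTS : Commute T S := by
    rw [hSpol]
    have h1 : T = Polynomial.aeval T (Polynomial.X : Polynomial F) := (Polynomial.aeval_X T).symm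
    have h2 : Commute (Polynomial.aeval T (Polynomial.X : Polynomial F))
        (Polynomial.aeval T (Polynomial.X + Polynomial.X ^ (r - 1) : Polynomial F)) :=
      (Commute.all _ _).map (Polynomial.aeval T)
    rwa [← h1] at h2
  have hcTx : ∀ p : Polynomial F, Commute T (Polynomial.aeval S p) := by
    intro p
    induction p using Polynomial.induction_on' with
    | add p q hp hq => rw [map_add]; exact hp.add_right hq
    | monomial n a =>
      rw [Polynomial.aeval_monomial]
      have hc : Commute T (algebraMap F (V →ₗ[F] V) a) := (Algebra.commutes a T).symm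
      exact hc.mul_right (hcTS.pow_right n)
  have hxk : ∀ (p : Polynomial F) (u : V),
      Polynomial.aeval S p (k u) = k (Polynomial.aeval S p u) := by
    intro p u
    have h1 := LinearMap.congr_fun (hcTx p).eq u
    rw [Module.End.mul_apply, Module.End.mul_apply, hT, hT] at h1
    exact h1.symm
  -- the property
  let P : Submodule F V → Prop := fun U => U ≠ ⊥ ∧ (∀ u ∈ U, k u ∈ U) ∧
    (∀ u ∈ U, k u = u → u = 0) ∧ (∀ u ∈ U, (∀ w ∈ U, B u w = 0) → u = 0)
  have hex : ∃ U, P U := by
    obtain ⟨W, hW⟩ : ∃ W : Submodule F V, W = LinearMap.range (T - LinearMap.id) := ⟨_, rfl⟩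
    have hWm : ∀ v, k v - v ∈ W := by
      intro v
      rw [hW, LinearMap.mem_range]
      exact ⟨v, by rw [LinearMap.sub_apply, LinearMap.id_apply, hT]⟩
    have hWe : ∀ w ∈ W, ∃ v, w = k v - v := by
      intro w hw
      rw [hW, LinearMap.mem_range] at hw
      obtain ⟨v, rfl⟩ := hw
      exact ⟨v, by rw [LinearMap.sub_apply, LinearMap.id_apply, hT]⟩
    have hpow : ∀ (j : ℕ) (v : V), (k ^ j) v - v ∈ W := by
      intro j
      induction j with
      | zero => intro v; simp
      | succ j ih =>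
        intro v
        have h1 : (k ^ (j + 1)) v - v = ((k ^ j) (k v) - k v) + (k v - v) := by
          rw [pow_succ, Equiv.Perm.mul_apply]
          abel
        rw [h1]
        exact W.add_mem (ih _) (hWm v)
    have horth : ∀ w ∈ W, ∀ u, k u = u → B w u = 0 := by
      intro w hw u hu
      obtain ⟨v, rfl⟩ := hWe w hw
      have h1 := hkB v u
      rw [hu] at h1
      rw [map_sub, LinearMap.sub_apply, h1, sub_self]
    have hsup : ∀ v : V, ∃ u, k u = u ∧ ∃ w ∈ W, v = u + w := by
      intro v
      obtain ⟨s, hs⟩ : ∃ s : V, s = ∑ j ∈ Finset.range r, (k ^ j) v := ⟨_, rfl⟩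
      have hsU : k s = s := by
        have h1 : k s = ∑ j ∈ Finset.range r, (k ^ (j + 1)) v := by
          rw [← hT, hs, map_sum]
          refine Finset.sum_congr rfl fun j _ => ?_
          rw [hT, pow_succ', Equiv.Perm.mul_apply]
        rw [h1]
        have h2 := Finset.sum_range_succ (fun j => (k ^ j) v) r
        have h3 := Finset.sum_range_succ' (fun j => (k ^ j) v) r
        rw [h2] at h3
        simp only [hkr, pow_zero, Equiv.Perm.one_apply] at h3
        rw [hs]
        exact (add_right_cancel h3).symm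
      have hsW : s - (r : F) • v ∈ W := by
        have h1 : s - (r : F) • v = ∑ j ∈ Finset.range r, ((k ^ j) v - v) := by
          rw [Finset.sum_sub_distrib, Finset.sum_const, Finset.card_range, hs,
            Nat.cast_smul_eq_nsmul]
        rw [h1]
        exact W.sum_mem fun j _ => hpow j v
      refine ⟨(r : F)⁻¹ • s, by rw [hksmul, hsU], -((r : F)⁻¹ • (s - (r : F) • v)),
        W.neg_mem (W.smul_mem _ hsW), ?_⟩
      rw [smul_sub, smul_smul, inv_mul_cancel₀ hrF, one_smul]
      abel
    refine ⟨W, ?_, ?_, ?_, ?_⟩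
    · intro h0
      apply hk1
      ext v
      have h1 := hWm v
      rw [h0, Submodule.mem_bot, sub_eq_zero] at h1
      rw [h1]; rfl
    · intro w hw
      obtain ⟨v, rfl⟩ := hWe w hw
      have h1 : k (k v - v) = k (k v) - k v := by rw [← hT, ← hT, ← hT, map_sub]
      rw [h1]
      exact hWm _
    · intro w hw hfix
      apply hB.nd
      intro x
      obtain ⟨u, hu, w', hw', rfl⟩ := hsup x
      rw [map_add, horth w hw u hu, hB.symm w w', horth w' hw' w hfix, add_zero]
    · intro w hw h0
      apply hB.nd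
      intro x
      obtain ⟨u, hu, w', hw', rfl⟩ := hsup x
      rw [map_add, horth w hw u hu, h0 w' hw', add_zero]
  -- minimal one
  obtain ⟨U, hPU, hmin⟩ : ∃ U, P U ∧ ∀ U', P U' → finrank F U ≤ finrank F U' := by
    have hex' : ∃ n, ∃ U, P U ∧ finrank F U = n := by
      obtain ⟨U, hU⟩ := hex
      exact ⟨_, U, hU, rfl⟩
    obtain ⟨U, hU, hUn⟩ := Nat.find_spec hex'
    refine ⟨U, hU, fun U' hU' => ?_⟩
    rw [hUn]
    exact Nat.find_min' hex' ⟨U', hU', rfl⟩
  obtain ⟨hU0, hUk, hUf, hUn⟩ := hPU
  refine ⟨S, U, hSv, hU0, hUk, hUf, hUn, fun p => ?_⟩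
  have hUpow : ∀ (j : ℕ), ∀ u ∈ U, (k ^ j) u ∈ U := by
    intro j
    induction j with
    | zero => intro u hu; exact hu
    | succ j ih =>
      intro u hu
      rw [pow_succ, Equiv.Perm.mul_apply]
      exact ih _ (hUk u hu)
  have hUS : ∀ u ∈ U, S u ∈ U := by
    intro u hu
    have h1 : S u = k u + (k ^ (r - 1)) u := by
      rw [hS, LinearMap.add_apply, hT, hTiT, hTpow]
    rw [h1]
    exact U.add_mem (hUk u hu) (hUpow _ u hu)
  have hUx : ∀ (p : Polynomial F), ∀ u ∈ U, Polynomial.aeval S p u ∈ U := by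
    intro p
    induction p using Polynomial.induction_on' with
    | add p q hp hq =>
      intro u hu
      rw [map_add, LinearMap.add_apply]
      exact U.add_mem (hp u hu) (hq u hu)
    | monomial n a =>
      intro u hu
      rw [Polynomial.aeval_monomial, ← Algebra.smul_def, LinearMap.smul_apply]
      refine U.smul_mem a ?_
      clear hmin
      induction n with
      | zero => exact hu
      | succ n ih =>
        rw [pow_succ', Module.End.mul_apply]
        exact hUS _ ih
  obtain ⟨x, hx⟩ : ∃ x : V →ₗ[F] V, x = Polynomial.aeval S p := ⟨_, rfl⟩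
  have hUxp : ∀ (n : ℕ), ∀ u ∈ U, (x ^ n) u ∈ U := by
    intro n u hu
    rw [hx, ← map_pow]
    exact hUx _ u hu
  obtain ⟨K0, hK0⟩ : ∃ K0 : Submodule F V, K0 = U ⊓ LinearMap.ker x := ⟨_, rfl⟩
  have hK0m : ∀ v, v ∈ K0 ↔ v ∈ U ∧ x v = 0 := by
    intro v
    rw [hK0, Submodule.mem_inf, LinearMap.mem_ker]
  by_cases hbot : K0 = ⊥
  · right
    intro u hu hxu
    rw [← hx] at hxu
    have h1 : u ∈ K0 := (hK0m u).2 ⟨hu, hxu⟩
    rwa [hbot, Submodule.mem_bot] at h1
  · left
    have hPK : P K0 := by
      refine ⟨hbot, ?_, ?_, ?_⟩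
      · intro u hu
        rw [hK0m] at hu ⊢
        refine ⟨hUk u hu.1, ?_⟩
        rw [hx, hxk, ← hx, hu.2, ← hT, map_zero]
      · intro u hu
        exact hUf u ((hK0m u).1 hu).1
      · intro u hu h0
        obtain ⟨huU, hxu⟩ := (hK0m u).1 hu
        apply hUn u huU
        intro w hw
        have hxw : x (w - (x ^ (Q - 1)) w) = 0 := by
          rw [map_sub, ← Module.End.mul_apply, ← pow_succ', Nat.sub_add_cancel (by omega), hx,
            hxQ, sub_self]
        have h1 : B u (w - (x ^ (Q - 1)) w) = 0 := by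
          apply h0
          rw [hK0m]
          exact ⟨U.sub_mem hw (hUxp _ w hw), hxw⟩
        have h2 : B u ((x ^ (Q - 1)) w) = 0 := by
          have h3 : (x ^ (Q - 1)) w = x ((x ^ (Q - 2)) w) := by
            rw [← Module.End.mul_apply, ← pow_succ']
            congr 2
            omega
          rw [h3, hx, ← hxadj, ← hx, hxu, map_zero, LinearMap.zero_apply]
        have h4 : w = (w - (x ^ (Q - 1)) w) + (x ^ (Q - 1)) w := by abel
        rw [h4, map_add, h1, h2, add_zero]
    have hle : K0 ≤ U := by rw [hK0]; exact inf_le_left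
    have heq : K0 = U := Submodule.eq_of_le_of_finrank_le hle (hmin K0 hPK)
    intro u hu
    rw [← heq] at hu
    rw [← hx]
    exact ((hK0m u).1 hu).2

end Pool.Agent.ORT
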